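import Pool.Agent.Y501.SY.StmT

/-!
Local regularization of a uniformly taming closed form.
-/

set_option autoImplicit false
set_option linter.all false

open Set Filter Topology MeasureTheory
open scoped Manifold ContDiff

noncomputable section

namespace Pool.Agent.Y427.SY

open Pool.Agent.Y501.SY

theorem two_le {d : ℕ} (f : (E d) [⋀^Fin 2]→L[ℝ] ℝ) (v w : E d) :
    |f ![v, w]| ≤ ‖f‖ * (‖v‖ * ‖w‖) := by
  have h := f.le_opNorm ![v, w]
  rw [Fin.prod_univ_two] at h
  simpa using h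

theorem t_LREG : S_LREG := by
  intro hRG hKER hSM d V k χ s t Js B c hc hV hk hVk hcap hχ hχ0 hχc hχs hs1 hs2 hs3 ht1 ht2 ht3
    hJ1 hJ2 htp hsp
  obtain ⟨ε, hε⟩ : ∃ ε : ℝ, ε = c / (B ^ 2 + 1) := ⟨_, rfl⟩
  have hε0 : 0 < ε := by rw [hε]; positivity
  have hεB : ε * B ^ 2 ≤ c := by
    rw [hε, div_mul_eq_mul_div, div_le_iff₀ (by positivity)]
    nlinarith
  have hB0 : ∀ p ∈ V, 0 ≤ B := fun p hp => (norm_nonneg _).trans (ht3 p hp)
  -- the open set
  have hopen : IsOpen (V \ (k ∩ {p | χ p = 0})) := by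
    have e1 : V \ (k ∩ {p | χ p = 0}) = (V \ k) ∪ (V ∩ {p | χ p ≠ 0}) := by
      ext p
      simp only [mem_diff, mem_inter_iff, mem_setOf_eq, mem_union]
      tauto
    rw [e1]
    refine hVk.union (hV.inter ?_)
    exact isOpen_ne_fun hχ.continuous continuous_const
  have hdt : ∀ p ∈ V, DifferentiableAt ℝ t p := fun p hp =>
    (ht1.contDiffAt (hV.mem_nhds hp)).differentiableAt (by simp)
  have hdt' : ∀ (r : ℝ), ∀ p ∈ V, DifferentiableAt ℝ (fun q => r • t q) p := fun r p hp =>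
    (hdt p hp).const_smul r
  have hds : ∀ p ∈ V \ k, DifferentiableAt ℝ s p := fun p hp =>
    (hs1.contDiffAt (hVk.mem_nhds hp)).differentiableAt (by simp)
  have het : ∀ (r : ℝ), ∀ p ∈ V, extDeriv (fun q => r • t q) p = 0 := by
    intro r p hp
    change extDeriv (r • t) p = 0
    rw [extDeriv_smul, ht2 p hp, smul_zero]
  obtain ⟨s1', B', g1, g2, g3, g4, g5⟩ := hRG hKER hSM d V k χ (fun p => s p + (-ε) • t p) Js
    (B + ε * B) 0 (ε * c / 2) hV hk hVk hcap hχ hχ0 hχc hχs
    (hs1.add ((ht1.mono diff_subset).const_smul (-ε)))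
    (fun p hp => by
      have h1 := extDeriv_fun_add (hds p hp) (hdt' (-ε) p hp.1)
      rw [h1, hs2 p hp, het (-ε) p hp.1, add_zero])
    (fun p hp => by
      refine (norm_add_le _ _).trans (add_le_add (hs3 p hp) ?_)
      rw [norm_smul, norm_neg, Real.norm_eq_abs, abs_of_pos hε0]
      exact mul_le_mul_of_nonneg_left (ht3 p hp.1) hε0.le)
    hJ1 le_rfl (by positivity)
    (fun p hp v => by
      have h1 := hsp p hp v
      have h2 := two_le (t p) v (Js p v)
      have hB := hB0 p hp.1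
      have h3 : ‖Js p v‖ ≤ B * ‖v‖ :=
        ((Js p).le_opNorm v).trans (mul_le_mul_of_nonneg_right (hJ2 p hp.1) (norm_nonneg _))
      have h4 : ‖t p‖ * (‖v‖ * ‖Js p v‖) ≤ B * (‖v‖ * (B * ‖v‖)) :=
        mul_le_mul (ht3 p hp.1) (mul_le_mul_of_nonneg_left h3 (norm_nonneg _))
          (by positivity) hB
      have h5 : t p ![v, Js p v] ≤ B ^ 2 * ‖v‖ ^ 2 := by
        refine (le_abs_self _).trans (h2.trans (h4.trans (le_of_eq ?_)))
        ring
      have h6 : (s p + (-ε) • t p) ![v, Js p v] = s p ![v, Js p v] - ε * t p ![v, Js p v] := by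
        change s p ![v, Js p v] + (-ε) * t p ![v, Js p v] = _
        ring
      rw [h6]
      have h7 := mul_le_mul_of_nonneg_left h5 hε0.le
      have h8 := mul_le_mul_of_nonneg_right hεB (sq_nonneg ‖v‖)
      nlinarith)
  refine ⟨fun p => s1' p + ε • t p, B' + ε * B, ε * c / 2, by positivity, ?_, ?_, ?_, ?_, ?_⟩
  · exact g1.add ((ht1.mono diff_subset).const_smul ε)
  · intro p hp
    have hd1 : DifferentiableAt ℝ s1' p :=
      (g1.contDiffAt (hopen.mem_nhds hp)).differentiableAt (by simp)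
    have h1 := extDeriv_fun_add hd1 (hdt' ε p hp.1)
    rw [h1, g2 p hp, het ε p hp.1, add_zero]
  · intro p hp
    refine (norm_add_le _ _).trans (add_le_add (g3 p hp) ?_)
    rw [norm_smul, Real.norm_eq_abs, abs_of_pos hε0]
    exact mul_le_mul_of_nonneg_left (ht3 p hp.1) hε0.le
  · intro p hp
    change s1' p + ε • t p = s p
    rw [g4 p hp]
    ext w
    change s p w + (-ε) * t p w + ε * t p w = s p w
    ring
  · intro p hp v
    have h1 := g5 p hp v
    have h2 := mul_le_mul_of_nonneg_left (htp p hp.1 v) hε0.le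
    change ε * c / 2 * ‖v‖ ^ 2 ≤ s1' p ![v, Js p v] + ε * t p ![v, Js p v]
    nlinarith

end Pool.Agent.Y427.SY
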